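import Mathlib

set_option autoImplicit false

open scoped ContDiff Topology

namespace Pool.Agent.H19.UNI

section defs

variable {V : Type} [NormedAddCommGroup V] [NormedSpace ℝ V]

/-- Fundamental tensor `g_y(u,v)`: half the second derivative of `F(x,·)^2` at `y` in the directions
`u`, `v`. -/
noncomputable def fund (F : V → V → ℝ) (x y u v : V) : ℝ :=
  (1 / 2) * fderiv ℝ (fun z => fderiv ℝ (fun w => F x w ^ 2) z v) y u

/-- Cartan tensor `C_y(u,v,w)`: half the derivative of `g_y(v,w)` in `y` in the direction `u`. -/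
noncomputable def cartan (F : V → V → ℝ) (x y u v w : V) : ℝ :=
  (1 / 2) * fderiv ℝ (fun z => fund F x z v w) y u

/-- `F` is a smooth Finsler metric on the open set `U` of the finite-dimensional space `V`. -/
structure IsFinsler (U : Set V) (F : V → V → ℝ) : Prop where
  isOpen : IsOpen U
  smooth : ContDiffOn ℝ ∞ (fun p : V × V => F p.1 p.2) (U ×ˢ {y : V | y ≠ 0})
  pos : ∀ x ∈ U, ∀ y : V, y ≠ 0 → 0 < F x y
  hom : ∀ x ∈ U, ∀ (y : V) (t : ℝ), 0 < t → F x (t • y) = t * F x y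
  convex : ∀ x ∈ U, ∀ y : V, y ≠ 0 → ∀ v : V, v ≠ 0 → 0 < fund F x y v v

/-- `G` is the geodesic spray of `F`:
`g_y(G,v) = (1/4) (∂_x in direction y of ∂_y in direction v of F^2 - ∂_x in direction v of F^2)`. -/
def IsSpray (U : Set V) (F : V → V → ℝ) (G : V → V → V) : Prop :=
  ∀ x ∈ U, ∀ y : V, y ≠ 0 → ∀ v : V,
    fund F x y (G x y) v = (1 / 4) *
      (fderiv ℝ (fun z => fderiv ℝ (fun w => F z w ^ 2) y v) x y
        - fderiv ℝ (fun z => F z y ^ 2) x v)

/-- Berwald curvature `B_y(u,v,w)`: the third derivative of `G(x,·)` at `y`. -/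
noncomputable def berwald (G : V → V → V) (x y u v w : V) : V :=
  fderiv ℝ (fun z₂ => fderiv ℝ (fun z₁ => fderiv ℝ (fun z => G x z) z₁ w) z₂ v) y u

/-- The Landsberg condition: `L_y(u,v,w) = -(1/2) g_y(B_y(u,v,w),y)` vanishes. -/
def IsLandsberg (U : Set V) (F : V → V → ℝ) (G : V → V → V) : Prop :=
  ∀ x ∈ U, ∀ y : V, y ≠ 0 → ∀ u v w : V,
    -(1 / 2) * fund F x y (berwald G x y u v w) y = 0

/-- `F` is Berwald: the Berwald curvature vanishes. -/
def IsBerwald (U : Set V) (G : V → V → V) : Prop :=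
  ∀ x ∈ U, ∀ y : V, y ≠ 0 → ∀ u v w : V, berwald G x y u v w = 0

end defs

section rigid

variable {V : Type} [AddCommGroup V] [Module ℝ V]

/-- `(g, C, y)` is rigid: zero is the only trilinear map `b : V × V × V → V`, symmetric, with
`g(b(u,v,w),z)` symmetric in all four arguments, `b(y,·,·) = 0`, and
`C(h,i,b(j,k,l)) - C(i,j,b(h,k,l)) + C(j,k,b(h,i,l)) - C(h,k,b(i,j,l)) = 0`. -/
def Rigid (g : V → V → ℝ) (C : V → V → V → ℝ) (y : V) : Prop :=
  ∀ b : V →ₗ[ℝ] V →ₗ[ℝ] V →ₗ[ℝ] V,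
    (∀ u v w : V, b u v w = b v u w) → (∀ u v w : V, b u v w = b u w v) →
    (∀ u v w z : V, g (b u v w) z = g (b z v w) u) →
    (∀ v w : V, b y v w = 0) →
    (∀ h i j k l : V,
      C h i (b j k l) - C i j (b h k l) + C j k (b h i l) - C h k (b i j l) = 0) →
    b = 0

end rigid

end Pool.Agent.H19.UNI
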