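import Pool.Agent.H19.UNI.Stmts

set_option autoImplicit false
set_option maxSynthPendingDepth 3

namespace Pool.Agent.H19.UNI

private def rfsL {V : Type} [AddCommGroup V] [Module ℝ V]
    (C : V →ₗ[ℝ] V →ₗ[ℝ] V →ₗ[ℝ] ℝ) :
    (V →ₗ[ℝ] V →ₗ[ℝ] V →ₗ[ℝ] V) →ₗ[ℝ] (V → V → V → V → V → ℝ) where
  toFun b := fun h i j k l =>
    C h i (b j k l) - C i j (b h k l) + C j k (b h i l) - C h k (b i j l)
  map_add' a b := by
    funext h i j k l
    simp only [LinearMap.add_apply, map_add, Pi.add_apply]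
    ring
  map_smul' c b := by
    funext h i j k l
    simp only [LinearMap.smul_apply, map_smul, Pi.smul_apply, smul_eq_mul, RingHom.id_apply]
    ring

private def rfsX {V : Type} [AddCommGroup V] [Module ℝ V]
    (g : V →ₗ[ℝ] V →ₗ[ℝ] ℝ) (y : V) : Submodule ℝ (V →ₗ[ℝ] V →ₗ[ℝ] V →ₗ[ℝ] V) where
  carrier := {b | (∀ u v w : V, b u v w = b v u w) ∧ (∀ u v w : V, b u v w = b u w v) ∧
    (∀ u v w z : V, g (b u v w) z = g (b z v w) u) ∧ (∀ v w : V, b y v w = 0)}
  add_mem' := by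
    rintro a b ⟨a1, a2, a3, a4⟩ ⟨b1, b2, b3, b4⟩
    refine ⟨fun u v w => ?_, fun u v w => ?_, fun u v w z => ?_, fun v w => ?_⟩
    · simp only [LinearMap.add_apply]; rw [a1 u v w, b1 u v w]
    · simp only [LinearMap.add_apply]; rw [a2 u v w, b2 u v w]
    · simp only [LinearMap.add_apply, map_add]; rw [a3 u v w z, b3 u v w z]
    · simp only [LinearMap.add_apply]; rw [a4 v w, b4 v w, add_zero]
  zero_mem' := by
    refine ⟨fun u v w => ?_, fun u v w => ?_, fun u v w z => ?_, fun v w => ?_⟩ <;> simp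
  smul_mem' := by
    rintro c b ⟨b1, b2, b3, b4⟩
    refine ⟨fun u v w => ?_, fun u v w => ?_, fun u v w z => ?_, fun v w => ?_⟩
    · simp only [LinearMap.smul_apply]; rw [b1 u v w]
    · simp only [LinearMap.smul_apply]; rw [b2 u v w]
    · simp only [LinearMap.smul_apply, map_smul]; rw [b3 u v w z]
    · simp only [LinearMap.smul_apply]; rw [b4 v w, smul_zero]

theorem rfs : RFSStmt := by
  intro V _ _ _ g C C₀ y hR
  classical
  set X := rfsX g y with hX
  have hinj : LinearMap.ker ((rfsL C₀).domRestrict X) = ⊥ := by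
    rw [LinearMap.ker_eq_bot']
    rintro ⟨b, hb⟩ h0
    have hb' := hb
    obtain ⟨b1, b2, b3, b4⟩ := hb'
    apply Subtype.ext
    refine hR b b1 b2 b3 b4 ?_
    intro h i j k l
    have := congrFun (congrFun (congrFun (congrFun (congrFun h0 h) i) j) k) l
    simpa [rfsL, LinearMap.domRestrict_apply] using this
  obtain ⟨P, hP⟩ := LinearMap.exists_leftInverse_of_injective ((rfsL C₀).domRestrict X) hinj
  set T : Module.End ℝ X := P ∘ₗ ((rfsL C).domRestrict X) with hT
  have hfin : Set.Finite {μ : ℝ | T.HasEigenvalue μ} := T.finite_hasEigenvalue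
  refine ((hfin.image (fun μ => -μ)).subset ?_)
  intro t ht
  simp only [Set.mem_ofPred_eq, Rigid, not_forall] at ht
  obtain ⟨b, b1, b2, b3, b4, b5, hne⟩ := ht
  refine ⟨-t, ?_, by simp⟩
  have hbX : b ∈ X := ⟨b1, b2, b3, b4⟩
  have hne' : (⟨b, hbX⟩ : X) ≠ 0 := by
    intro h
    apply hne
    exact congrArg Subtype.val h
  have hsum : (rfsL C).domRestrict X ⟨b, hbX⟩ = -(t • ((rfsL C₀).domRestrict X ⟨b, hbX⟩)) := by
    funext h i j k l
    have h5 := b5 h i j k l
    simp only [LinearMap.add_apply, LinearMap.smul_apply, smul_eq_mul] at h5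
    simp only [rfsL, LinearMap.domRestrict_apply, LinearMap.coe_mk, AddHom.coe_mk, Pi.neg_apply,
      Pi.smul_apply, smul_eq_mul]
    linarith
  have hPb : P ((rfsL C₀).domRestrict X ⟨b, hbX⟩) = ⟨b, hbX⟩ := by
    have := LinearMap.congr_fun hP ⟨b, hbX⟩
    simpa using this
  have hTb : T ⟨b, hbX⟩ = (-t) • (⟨b, hbX⟩ : X) := by
    rw [hT, LinearMap.comp_apply, hsum, map_neg, map_smul, hPb]
    exact (neg_smul t (⟨b, hbX⟩ : X)).symm
  exact Module.End.hasEigenvalue_of_hasEigenvector (x := (⟨b, hbX⟩ : X))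
    ⟨Module.End.mem_eigenspace_iff.mpr hTb, hne'⟩

end Pool.Agent.H19.UNI
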