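import Pool.Agent.H19.UNI.Defs

/-!
Board uni7 (helper19).  Each row XXX: prove `theorem xxx : XXXStmt` in the file
Pool/Agent/H19/UNI/XXX.lean, importing Pool.Agent.H19.UNI.Stmts and the rows named in `needs`
(a row may also use other rows as hypotheses).  `Rigid` and the other definitions are in Defs.lean.
All rows are about a real finite-dimensional normed space `V : Type`.
-/

set_option autoImplicit false
set_option maxSynthPendingDepth 3

open scoped ContDiff Topology

namespace Pool.Agent.H19.UNI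

/-- Row REQ.  Invariance of rigidity under linear isomorphisms.
Proof: given `b'` on `W` solving the system for `(g', C', A y)`, put
`b u v w = A.symm (b' (A u) (A v) (A w))`; it solves the system for `(g, C, y)`, so `b = 0`,
so `b' = 0` because `A` is onto. -/
def REQStmt : Prop :=
  ∀ (V W : Type) [AddCommGroup V] [Module ℝ V] [AddCommGroup W] [Module ℝ W]
    (A : V ≃ₗ[ℝ] W) (g : V → V → ℝ) (C : V → V → V → ℝ) (y : V)
    (g' : W → W → ℝ) (C' : W → W → W → ℝ),
    (∀ u v, g' (A u) (A v) = g u v) → (∀ u v w, C' (A u) (A v) (A w) = C u v w) →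
    Rigid g C y → Rigid g' C' (A y)

/-- Row ROP.  The set of rigid triples is open.
Proof: let `B` be the finite-dimensional normed space `V →L[ℝ] V →L[ℝ] V →L[ℝ] V`
(every linear map of the definition of `Rigid` is continuous).  For `q = (g, C, y)` and `b : B` let
`Phi q b` be the tuple of the five defect (multi)linear maps of the definition of `Rigid`
(or: the set of the five families of equations).  The set `Z` of all `(q, b)` with `‖b‖ = 1` for
which all equations hold is closed (each equation, for fixed vectors, is an equality of continuous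
functions of `(q, b)`), the unit sphere of `B` is compact, so the projection of `Z` to the `q`-space
is closed (`isClosedMap_fst_of_compactSpace` or similar), and it is the complement of the set in
question: if `b ≠ 0` solves the equations then so does `‖b‖⁻¹ • b`. -/
def ROPStmt : Prop :=
  ∀ (V : Type) [NormedAddCommGroup V] [NormedSpace ℝ V] [FiniteDimensional ℝ V],
    IsOpen {q : (V →L[ℝ] V →L[ℝ] ℝ) × (V →L[ℝ] V →L[ℝ] V →L[ℝ] ℝ) × V |
      Rigid (fun u v => q.1 u v) (fun u v w => q.2.1 u v w) q.2.2}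

/-- Row RSC.  Rigidity does not change when `C` and `y` are multiplied by nonzero numbers.
Proof: the equations for `b` are the same equations. -/
def RSCStmt : Prop :=
  ∀ (V : Type) [AddCommGroup V] [Module ℝ V] (g : V → V → ℝ) (C : V → V → V → ℝ) (y : V)
    (s t : ℝ), s ≠ 0 → t ≠ 0 → Rigid g C y → Rigid g (fun u v w => s * C u v w) (t • y)

/-- Row RFS.  Pencils: if `C₀` is rigid then `C + t C₀` is rigid for all but finitely many `t`.
Proof: let `X` be the linear subspace of all `b : V →ₗ V →ₗ V →ₗ V` satisfying the first four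
conditions of `Rigid` for `(g, y)` (they are linear in `b` because `g` is linear), finite-dimensional.
For a trilinear `C` let `L C : X →ₗ (V →ₗ V →ₗ V →ₗ V →ₗ V →ₗ ℝ)` (or any linear map into a
function space, e.g. `V → V → V → V → V → ℝ`) be the left side of the fifth condition.  It is linear
in `C`, and `Rigid g C y` says that `L C` is injective.  `L C₀` is injective, so it has a linear
left inverse `P` (`LinearMap.exists_leftInverse_of_injective`), and
`P ∘ L (C + t C₀) = P ∘ L C + t`, which is injective unless `-t` is an eigenvalue of the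
endomorphism `P ∘ L C` of `X`; an endomorphism of a finite-dimensional space has finitely many
eigenvalues. -/
def RFSStmt : Prop :=
  ∀ (V : Type) [AddCommGroup V] [Module ℝ V] [FiniteDimensional ℝ V]
    (g : V →ₗ[ℝ] V →ₗ[ℝ] ℝ) (C C₀ : V →ₗ[ℝ] V →ₗ[ℝ] V →ₗ[ℝ] ℝ) (y : V),
    Rigid (fun u v => g u v) (fun u v w => C₀ u v w) y →
    {t : ℝ | ¬ Rigid (fun u v => g u v) (fun u v w => (C + t • C₀) u v w) y}.Finite

/-- Row RBA.  Adapted orthonormal basis.  Proof: `g` is an inner product; take a `g`-orthonormal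
basis whose last vector is `y / sqrt (g y y)`. -/
def RBAStmt : Prop :=
  ∀ (V : Type) [AddCommGroup V] [Module ℝ V] [FiniteDimensional ℝ V] (m : ℕ)
    (g : V →ₗ[ℝ] V →ₗ[ℝ] ℝ) (y : V),
    Module.finrank ℝ V = m + 1 → (∀ u v, g u v = g v u) → (∀ v, v ≠ 0 → 0 < g v v) → y ≠ 0 →
    ∃ (f : Module.Basis (Fin (m + 1)) ℝ V) (c : ℝ), c ≠ 0 ∧ y = c • f (Fin.last m) ∧
      ∀ i j, g (f i) (f j) = if i = j then 1 else 0

/-- Row RX4.  A rigid cubic form on `R^m`, `m ≥ 4`.
Notation: `e_0, ..., e_{m-1}` the standard basis of `Fin m → ℝ`, and `C₀` the symmetric trilinear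
form with `C₀(e_0,e_i,e_i) = i` and `C₀(e_0,e_0,e_i) = 1` for `1 ≤ i < m` (and the permuted entries),
all other entries `0`.  The statement is about arrays: `b` is a symmetric array with four indices.
Write `λ_i = i`, indices `i, j, k ≥ 1`.  The hypothesis `h` with the indices indicated gives
 (1) (i,i,j,j; l), i ≠ j:  λ_i b_{0jjl} + λ_j b_{0iil} = 0;
 (2) (i,i,j,k; l), i, j, k distinct: λ_i b_{0jkl} = 0;
 (3) (i,i,j,0; l), i ≠ j:  λ_i b_{00jl} + (λ_j - λ_i) b_{iijl} + b_{0iil} - b_{0ijl} = 0;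
 (4) (0,0,i,i; l): sum_{r ≥ 1} b_{riil} - 2 λ_i b_{0iil} - 2 b_{00il} + λ_i b_{000l} = 0;
 (5) (i,k,j,0; l)-type, i, j, k distinct: (λ_j - λ_i) b_{ijkl} + b_{0ikl} - b_{0jkl} = 0.
From (2): b_{0jkl} = 0 for j ≠ k (both ≥ 1), all l (including 0).  From (1) with l = i: b_{0iii} = 0;
(1) with l = 0 for three distinct indices (here m ≥ 4 is used) gives b_{00ii} = 0.  So b_{0jkl} = 0
whenever j, k, l ≥ 1 and b_{00jk} = 0 for j, k ≥ 1.  (5), (3) with l ≥ 1: b_{ijkl} = 0 unless
i = j = k = l.  (3) with l = 0: b_{000j} = 0.  (4) with l = i: b_{iiii} = 0.  (4) with l = 0: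
b_{0000} = 0. -/
def RX4Stmt : Prop :=
  ∀ (m : ℕ), 4 ≤ m → ∃ C : Fin m → Fin m → Fin m → ℝ,
    (∀ i j k, C i j k = C j i k) ∧ (∀ i j k, C i j k = C i k j) ∧
    ∀ b : Fin m → Fin m → Fin m → Fin m → ℝ,
      (∀ i j k l, b i j k l = b j i k l) → (∀ i j k l, b i j k l = b i k j l) →
      (∀ i j k l, b i j k l = b i j l k) →
      (∀ h i j k l, ∑ r, (C h i r * b r j k l - C i j r * b r h k l + C j k r * b r h i l
        - C h k r * b r i j l) = 0) →
      ∀ i j k l, b i j k l = 0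

/-- Row RX3.  The same for `m = 3`, same `C₀` (entries `C₀(e_0,e_1,e_1) = 1`,
`C₀(e_0,e_2,e_2) = 2`, `C₀(e_0,e_0,e_1) = C₀(e_0,e_0,e_2) = 1` and permuted entries, others zero).
The map has rank 15 = the number of unknowns (checked by computer); so this is finite linear
arithmetic: expand all the equations (`Fin.sum_univ_three`) for the index tuples with h < j and
i < k, reduce `b` to its 15 independent entries by symmetry, and solve (`linarith`). -/
def RX3Stmt : Prop :=
  ∃ C : Fin 3 → Fin 3 → Fin 3 → ℝ,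
    (∀ i j k, C i j k = C j i k) ∧ (∀ i j k, C i j k = C i k j) ∧
    ∀ b : Fin 3 → Fin 3 → Fin 3 → Fin 3 → ℝ,
      (∀ i j k l, b i j k l = b j i k l) → (∀ i j k l, b i j k l = b i k j l) →
      (∀ i j k l, b i j k l = b i j l k) →
      (∀ h i j k l, ∑ r, (C h i r * b r j k l - C i j r * b r h k l + C j k r * b r h i l
        - C h k r * b r i j l) = 0) →
      ∀ i j k l, b i j k l = 0

/-- Row REX.  Rigid forms exist in every dimension `≥ 4`, for all `g` and `y`.
Proof: let `finrank V = m + 1`, `m ≥ 3`; take the basis `f_0, ..., f_m` of RBA and the array `C` of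
RX3 / RX4 (`m = 3` / `m ≥ 4`), and
`C₀(u,v,w) = sum_{i,j,k < m} C i j k * x_i(u) x_j(v) x_k(w)` with `x_i` the coordinates of the basis,
`i < m` (so the last coordinate does not occur and `C₀(y,·,·) = 0`).  If `b` solves the system for
`(g, C₀, y)`, put `β i j k l = g (b (f i) (f j) (f k)) (f l)`; it is symmetric, zero if an index
is `m` (since `b (f_m) = 0` and symmetry), and as the basis is orthonormal
`b (f j) (f k) (f l) = sum_r β r j k l • f r`; the fifth condition at basis vectors with indices `< m`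
is the array equation, so `β = 0` by RX3 / RX4, so `b = 0`. -/
def REXStmt : Prop :=
  ∀ (V : Type) [AddCommGroup V] [Module ℝ V] [FiniteDimensional ℝ V]
    (g : V →ₗ[ℝ] V →ₗ[ℝ] ℝ) (y : V),
    4 ≤ Module.finrank ℝ V → (∀ u v, g u v = g v u) → (∀ v, v ≠ 0 → 0 < g v v) → y ≠ 0 →
    ∃ C₀ : V →ₗ[ℝ] V →ₗ[ℝ] V →ₗ[ℝ] ℝ,
      (∀ u v w, C₀ u v w = C₀ v u w) ∧ (∀ u v w, C₀ u v w = C₀ u w v) ∧
      (∀ v w, C₀ y v w = 0) ∧ Rigid (fun u v => g u v) (fun u v w => C₀ u v w) y

/-- Row LOD.  A linear differential equation with small coefficients on `[0,1]`.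
Proof: Picard-Lindelöf (`IsPicardLindelof`) for `f t A = -(M t) ∘L A` on the closed ball of radius 1
about the identity, `t ∈ [0,1]`: Lipschitz constant `1/8`, bound `‖f t A‖ ≤ (1/8) * 2 ≤ 1`
(if the norm of the identity is `≤ 1`), time 1. -/
def LODStmt : Prop :=
  ∀ (V : Type) [NormedAddCommGroup V] [NormedSpace ℝ V] [FiniteDimensional ℝ V]
    (M : ℝ → V →L[ℝ] V), ContinuousOn M (Set.Icc (0 : ℝ) 1) →
    (∀ t ∈ Set.Icc (0 : ℝ) 1, ‖M t‖ ≤ 1 / 8) →
    ∃ A : ℝ → V →L[ℝ] V, A 0 = ContinuousLinearMap.id ℝ V ∧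
      ∀ t ∈ Set.Icc (0 : ℝ) 1, HasDerivWithinAt A (-((M t).comp (A t))) (Set.Icc 0 1) t

/-- Row INV.  Propagation of rigidity along a curve (needs REQ, ROP, LOD).
Proof: let `A` be the solution of LOD.  Let `s` be the set of `t ∈ [0,1]` such that the triple is
rigid at all `τ ∈ [0,t]`.  `0 ∈ s`.  Let `T ∈ [0,1]` be such that the triple is rigid at all
`τ ∈ [0,T)` (this covers limits of points of `s`).  On `[0,T)` the derivative of
`t ↦ g t (A t u) (A t w)` is zero and so is the one of `t ↦ C t (A t u) (A t v) (A t w)` (as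
`β t = 0` there), so both are constant on `[0,T]` by continuity.  Also `z t = A t (y 0) - y t`
satisfies `z' = -(M z)`, `z 0 = 0`, so `(g t (z t) (z t))' = 0` and `z = 0` on `[0,T]`
(or use Gronwall).  `A T` is injective since `g T (A T u) (A T u) = g 0 u u > 0` for `u ≠ 0`, so it
is a linear isomorphism (finite dimension) and REQ gives rigidity at `T`.  By ROP the triple is
rigid at all `t ∈ [0,1]` near `T`.  So `s = [0,1]` (`IsClosed.Icc_subset_of_forall_exists_gt`
or a supremum argument). -/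
def INVStmt : Prop :=
  ∀ (V : Type) [NormedAddCommGroup V] [NormedSpace ℝ V] [FiniteDimensional ℝ V]
    (M : ℝ → V →L[ℝ] V) (g : ℝ → V →L[ℝ] V →L[ℝ] ℝ) (C : ℝ → V →L[ℝ] V →L[ℝ] V →L[ℝ] ℝ)
    (y : ℝ → V) (β : ℝ → V → V → V → ℝ),
    ContinuousOn M (Set.Icc (0 : ℝ) 1) →
    (∀ t ∈ Set.Icc (0 : ℝ) 1, ‖M t‖ ≤ 1 / 8) →
    ContinuousOn g (Set.Icc (0 : ℝ) 1) → ContinuousOn C (Set.Icc (0 : ℝ) 1) →
    (∀ t ∈ Set.Icc (0 : ℝ) 1, ∀ v, v ≠ 0 → 0 < g t v v) →
    (∀ t ∈ Set.Icc (0 : ℝ) 1, HasDerivWithinAt y (-(M t (y t))) (Set.Icc 0 1) t) →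
    (∀ t ∈ Set.Icc (0 : ℝ) 1, ∃ g' : V →L[ℝ] V →L[ℝ] ℝ,
      HasDerivWithinAt g g' (Set.Icc 0 1) t ∧
      ∀ u w, g' u w = g t (M t u) w + g t u (M t w)) →
    (∀ t ∈ Set.Icc (0 : ℝ) 1, ∃ C' : V →L[ℝ] V →L[ℝ] V →L[ℝ] ℝ,
      HasDerivWithinAt C C' (Set.Icc 0 1) t ∧
      ∀ u v w, C' u v w = C t (M t u) v w + C t u (M t v) w + C t u v (M t w) + β t u v w) →
    (∀ t ∈ Set.Icc (0 : ℝ) 1,
      Rigid (fun u v => g t u v) (fun u v w => C t u v w) (y t) → ∀ u v w, β t u v w = 0) →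
    Rigid (fun u v => g 0 u v) (fun u v w => C 0 u v w) (y 0) →
    Rigid (fun u v => g 1 u v) (fun u v w => C 1 u v w) (y 1)

/-- Row TRA.  Transport of a dense set of vectors along short segments.
Proof: choose `ρ > 0` with the closed ball `closedBall x ρ` in `U`.  On the compact set
`K = closedBall x ρ ×ˢ {1/4 ≤ ‖y‖ ≤ 2}` the continuous maps `N` and the `y`-derivative of `N` have
norms at most `c ≥ 1` (`N` is `C^1` jointly, so the derivative of `y ↦ N x y v` at `y` is
`fderiv (uncurried N) (x, y) (0, ·)` applied to `v`, of norm at most `c ‖v‖`).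
Take `ε ≤ ρ/2` with `2 c ε ≤ 1/16`.  Let `x₀, x₁` be in the ball of radius `ε`, `v = x₁ - x₀`,
`‖v‖ ≤ 2 ε`, and `f t y = -(N (x₀ + t • v) y v)`; for `t ∈ [0,1]` and `y` in the closed ball of
radius `1/2` about the unit vector `y₁` it has norm at most `1/16` and is Lipschitz in `y` with
constant at most `1/16`.  By Picard-Lindelöf (initial time 1) there is a curve `a` on `[0,1]` in that
ball with `a' = f t a`, `a 1 = y₁` and then `‖a t - y₁‖ ≤ 1/16`.  Given `δ`, choose by hypothesis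
`y₀'` with `‖y₀' - a 0‖ < min (1/16) (δ / 8)` and `R x₀ y₀'`.  By Picard-Lindelöf (initial time 0,
ball of radius `1/4` about `y₀'`) there is a curve `c` on `[0,1]` with `c' = f t c`, `c 0 = y₀'`.
By Gronwall (`dist_le_of_trajectories_ODE_of_mem`) `‖c 1 - a 1‖ ≤ exp (1/16) ‖y₀' - a 0‖ < δ`.
`hR` for `c` gives `R x₁ (c 1)`. -/
def TRAStmt : Prop :=
  ∀ (V : Type) [NormedAddCommGroup V] [NormedSpace ℝ V] [FiniteDimensional ℝ V]
    (U : Set V) (N : V → V → V →L[ℝ] V) (R : V → V → Prop),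
    IsOpen U →
    ContDiffOn ℝ 1 (fun p : V × V => N p.1 p.2) (U ×ˢ {y : V | y ≠ 0}) →
    (∀ (x₀ x₁ : V) (c : ℝ → V),
      (∀ t ∈ Set.Icc (0 : ℝ) 1, x₀ + t • (x₁ - x₀) ∈ U) →
      (∀ t ∈ Set.Icc (0 : ℝ) 1, c t ≠ 0) →
      (∀ t ∈ Set.Icc (0 : ℝ) 1,
        HasDerivWithinAt c (-(N (x₀ + t • (x₁ - x₀)) (c t) (x₁ - x₀))) (Set.Icc 0 1) t) →
      (∀ t ∈ Set.Icc (0 : ℝ) 1,
        ‖fderiv ℝ (fun y => N (x₀ + t • (x₁ - x₀)) y (x₁ - x₀)) (c t)‖ ≤ 1 / 8) →
      R x₀ (c 0) → R x₁ (c 1)) →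
    ∀ x ∈ U, ∃ ε > 0, ∀ x₀ ∈ Metric.ball x ε, ∀ x₁ ∈ Metric.ball x ε,
      (∀ y : V, y ≠ 0 → ∀ δ > 0, ∃ y' : V, ‖y' - y‖ < δ ∧ R x₀ y') →
      ∀ y : V, ‖y‖ = 1 → ∀ δ > 0, ∃ y' : V, ‖y' - y‖ < δ ∧ R x₁ y'

/-- Row HOM.  Homogeneity of the fundamental and the Cartan tensor.
Proof: differentiate `F x (t • w) ^ 2 = t ^ 2 * F x w ^ 2` (for `w` with `w ≠ 0`, an open set) twice /
three times in `w`; `f (t • w)` has derivative `t • f' (t • w)`.  Only the behaviour near
`y ≠ 0` matters, where `F x` is smooth. -/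
def HOMStmt : Prop :=
  ∀ (V : Type) [NormedAddCommGroup V] [NormedSpace ℝ V] [FiniteDimensional ℝ V]
    (U : Set V) (F : V → V → ℝ), IsFinsler U F →
    ∀ x ∈ U, ∀ y : V, y ≠ 0 → ∀ t : ℝ, 0 < t → ∀ u v w : V,
      fund F x (t • y) u v = fund F x y u v ∧ cartan F x (t • y) u v w = t⁻¹ * cartan F x y u v w

end Pool.Agent.H19.UNI
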