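import Pool.Agent.H19.UNI.Stmts

set_option autoImplicit false
set_option maxSynthPendingDepth 3

open Set Metric
open scoped ContDiff Topology NNReal

namespace Pool.Agent.H19.UNI

private theorem tra_pl {E : Type} [NormedAddCommGroup E] [NormedSpace ℝ E] [CompleteSpace E]
    {f : ℝ → E → E} {tmin tmax : ℝ} {t₀ : Icc tmin tmax} {x₀ : E} {a L K : ℝ≥0}
    (hf : IsPicardLindelof f t₀ x₀ a 0 L K) :
    ∃ α : ℝ → E, α t₀ = x₀ ∧
      (∀ t ∈ Icc tmin tmax, HasDerivWithinAt α (f t (α t)) (Icc tmin tmax) t) ∧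
      (∀ t ∈ Icc tmin tmax, α t ∈ closedBall x₀ a) := by
  have hx : x₀ ∈ closedBall x₀ ((0 : ℝ≥0) : ℝ) := mem_closedBall_self le_rfl
  obtain ⟨α, hα⟩ := ODE.FunSpace.exists_isFixedPt_next hf hx
  refine ⟨α.compProj, by rw [ODE.FunSpace.compProj_val, ← hα, ODE.FunSpace.next_apply₀],
    fun t ht ↦ ?_, fun t ht => α.compProj_mem_closedBall hf.mul_max_le⟩
  apply ODE.hasDerivWithinAt_picard_Icc t₀.2 hf.continuousOn_uncurry
    α.continuous_compProj.continuousOn (fun _ ht' ↦ α.compProj_mem_closedBall hf.mul_max_le)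
    x₀ ht |>.congr_of_mem _ ht
  intro t' ht'
  nth_rw 1 [← hα]
  rw [ODE.FunSpace.compProj_of_mem ht', ODE.FunSpace.next_apply]

theorem tra : TRAStmt := by
  intro V _ _ _ U N R hU hN hR x hx
  have : ProperSpace V := FiniteDimensional.proper_real V
  have : CompleteSpace V := FiniteDimensional.complete ℝ V
  obtain ⟨ρ, hρ, hρU⟩ := Metric.nhds_basis_closedBall.mem_iff.mp (hU.mem_nhds hx)
  set O : Set (V × V) := U ×ˢ {y : V | y ≠ 0} with hO
  have hOo : IsOpen O := hU.prod isOpen_ne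
  set A : Set V := {y : V | 1 / 4 ≤ ‖y‖ ∧ ‖y‖ ≤ 2} with hA
  have hAc : IsCompact A := by
    have : A = closedBall (0 : V) 2 ∩ {y : V | 1 / 4 ≤ ‖y‖} := by
      ext y
      simp only [hA, mem_ofPred_eq, mem_inter_iff, mem_closedBall, dist_zero_right]
      tauto
    rw [this]
    exact (isCompact_closedBall (0 : V) 2).inter_right
      (isClosed_le continuous_const continuous_norm)
  set K : Set (V × V) := closedBall x ρ ×ˢ A with hK
  have hKc : IsCompact K := (isCompact_closedBall x ρ).prod hAc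
  have hKO : K ⊆ O := by
    rintro ⟨p, q⟩ ⟨hp, hq⟩
    refine ⟨hρU hp, ?_⟩
    intro h0
    simp only at h0
    have hq1 : 1 / 4 ≤ ‖q‖ := hq.1
    rw [h0, norm_zero] at hq1
    norm_num at hq1
  set Nu : V × V → V →L[ℝ] V := fun p => N p.1 p.2 with hNu
  have hNc : ContinuousOn Nu O := hN.continuousOn
  have hNd : ContinuousOn (fderiv ℝ Nu) O := hN.continuousOn_fderiv_of_isOpen hOo le_rfl
  obtain ⟨c₁, hc₁⟩ := hKc.exists_bound_of_continuousOn (hNc.mono hKO)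
  obtain ⟨c₂, hc₂⟩ := hKc.exists_bound_of_continuousOn (hNd.mono hKO)
  set c : ℝ := max 1 (max c₁ c₂) with hc
  have hc1 : 1 ≤ c := le_max_left _ _
  have hcN : ∀ p ∈ K, ‖Nu p‖ ≤ c := fun p hp =>
    (hc₁ p hp).trans ((le_max_left _ _).trans (le_max_right _ _))
  have hcD : ∀ p ∈ K, ‖fderiv ℝ Nu p‖ ≤ c := fun p hp =>
    (hc₂ p hp).trans ((le_max_right _ _).trans (le_max_right _ _))
  have hc0 : 0 < c := by linarith
  refine ⟨min (ρ / 2) (1 / (32 * c)), lt_min (by linarith) (by positivity), ?_⟩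
  intro x₀ hx₀ x₁ hx₁ hdense y₁ hy₁ δ hδ
  rw [mem_ball, dist_eq_norm] at hx₀ hx₁
  have hx₀ρ : ‖x₀ - x‖ < ρ / 2 := lt_of_lt_of_le hx₀ (min_le_left _ _)
  have hx₁ρ : ‖x₁ - x‖ < ρ / 2 := lt_of_lt_of_le hx₁ (min_le_left _ _)
  have hx₀c : ‖x₀ - x‖ < 1 / (32 * c) := lt_of_lt_of_le hx₀ (min_le_right _ _)
  have hx₁c : ‖x₁ - x‖ < 1 / (32 * c) := lt_of_lt_of_le hx₁ (min_le_right _ _)
  set v : V := x₁ - x₀ with hv
  have hvn : c * ‖v‖ ≤ 1 / 16 := by
    have h1 : ‖v‖ ≤ ‖x₁ - x‖ + ‖x₀ - x‖ := by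
      have : v = (x₁ - x) - (x₀ - x) := by rw [hv]; abel
      rw [this]; exact norm_sub_le _ _
    have h2 : ‖v‖ ≤ 2 * (1 / (32 * c)) := by linarith
    calc c * ‖v‖ ≤ c * (2 * (1 / (32 * c))) := mul_le_mul_of_nonneg_left h2 hc0.le
      _ = 1 / 16 := by field_simp; norm_num
  have hseg : ∀ t ∈ Icc (0 : ℝ) 1, x₀ + t • v ∈ closedBall x ρ := by
    intro t ht
    rw [mem_closedBall, dist_eq_norm]
    have e : x₀ + t • v - x = (1 - t) • (x₀ - x) + t • (x₁ - x) := by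
      rw [hv]; module
    rw [e]
    calc ‖(1 - t) • (x₀ - x) + t • (x₁ - x)‖ ≤ ‖(1 - t) • (x₀ - x)‖ + ‖t • (x₁ - x)‖ :=
          norm_add_le _ _
      _ = (1 - t) * ‖x₀ - x‖ + t * ‖x₁ - x‖ := by
          rw [norm_smul, norm_smul, Real.norm_of_nonneg ht.1,
            Real.norm_of_nonneg (by linarith [ht.2])]
      _ ≤ (1 - t) * (ρ / 2) + t * (ρ / 2) := by
          have h1 : 0 ≤ 1 - t := by linarith [ht.2]
          have h2 : 0 ≤ t := ht.1
          gcongr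
      _ ≤ ρ := by linarith
  set f : ℝ → V → V := fun t y => -(N (x₀ + t • v) y v) with hf
  have hfn : ∀ t ∈ Icc (0 : ℝ) 1, ∀ y ∈ A, ‖f t y‖ ≤ 1 / 16 := by
    intro t ht y hy
    have hmem : (x₀ + t • v, y) ∈ K := ⟨hseg t ht, hy⟩
    calc ‖f t y‖ = ‖N (x₀ + t • v) y v‖ := by rw [hf]; exact norm_neg _
      _ ≤ ‖N (x₀ + t • v) y‖ * ‖v‖ := ContinuousLinearMap.le_opNorm _ _
      _ ≤ c * ‖v‖ := mul_le_mul_of_nonneg_right (hcN _ hmem) (norm_nonneg _)
      _ ≤ 1 / 16 := hvn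
  have hder : ∀ t ∈ Icc (0 : ℝ) 1, ∀ y ∈ A, ∃ D : V →L[ℝ] V, ‖D‖ ≤ 1 / 16 ∧
      HasFDerivAt (fun z => N (x₀ + t • v) z v) D y := by
    intro t ht y hy
    have hmem : (x₀ + t • v, y) ∈ K := ⟨hseg t ht, hy⟩
    have hd : HasFDerivAt Nu (fderiv ℝ Nu (x₀ + t • v, y)) (x₀ + t • v, y) :=
      ((hN.differentiableOn one_ne_zero).differentiableAt (hOo.mem_nhds (hKO hmem))).hasFDerivAt
    have hi : HasFDerivAt (fun z : V => (x₀ + t • v, z))
        (ContinuousLinearMap.inr ℝ V V) y := hasFDerivAt_prodMk_right (x₀ + t • v) y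
    have hcomp : HasFDerivAt (fun z : V => N (x₀ + t • v) z)
        ((fderiv ℝ Nu (x₀ + t • v, y)).comp (ContinuousLinearMap.inr ℝ V V)) y :=
      HasFDerivAt.comp y hd hi
    set D : V →L[ℝ] V := (ContinuousLinearMap.apply ℝ V v).comp
      ((fderiv ℝ Nu (x₀ + t • v, y)).comp (ContinuousLinearMap.inr ℝ V V)) with hD
    have hD' : HasFDerivAt (fun z => N (x₀ + t • v) z v) D y :=
      (ContinuousLinearMap.apply ℝ V v).hasFDerivAt.comp y hcomp
    refine ⟨D, ?_, hD'⟩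
    refine ContinuousLinearMap.opNorm_le_bound _ (by norm_num) ?_
    intro w
    have e : D w = (fderiv ℝ Nu (x₀ + t • v, y)) (0, w) v := rfl
    rw [e]
    calc ‖(fderiv ℝ Nu (x₀ + t • v, y)) (0, w) v‖
        ≤ ‖(fderiv ℝ Nu (x₀ + t • v, y)) (0, w)‖ * ‖v‖ := ContinuousLinearMap.le_opNorm _ _
      _ ≤ (‖fderiv ℝ Nu (x₀ + t • v, y)‖ * ‖((0 : V), w)‖) * ‖v‖ :=
          mul_le_mul_of_nonneg_right (ContinuousLinearMap.le_opNorm _ _) (norm_nonneg _)
      _ ≤ (c * ‖w‖) * ‖v‖ := by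
          have h1 : ‖((0 : V), w)‖ = ‖w‖ := by
            rw [Prod.norm_def]; simp
          rw [h1]
          gcongr
          exact hcD _ hmem
      _ = (c * ‖v‖) * ‖w‖ := by ring
      _ ≤ 1 / 16 * ‖w‖ := mul_le_mul_of_nonneg_right hvn (norm_nonneg _)
  have hlip : ∀ t ∈ Icc (0 : ℝ) 1, ∀ (p : V) (r : ℝ), closedBall p r ⊆ A →
      LipschitzOnWith (1 / 16 : ℝ≥0) (f t) (closedBall p r) := by
    intro t ht p r hpr
    refine (convex_closedBall p r).lipschitzOnWith_of_nnnorm_hasFDerivWithin_le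
      (f' := fun y => if h : y ∈ A then -(hder t ht y h).choose else 0) ?_ ?_
    · intro y hy
      have hyA := hpr hy
      have := (hder t ht y hyA).choose_spec.2
      simp only [hyA, dif_pos]
      exact this.neg.hasFDerivWithinAt
    · intro y hy
      have hyA := hpr hy
      have := (hder t ht y hyA).choose_spec.1
      simp only [hyA, dif_pos]
      rw [nnnorm_neg]
      exact_mod_cast this
  have hcont : ∀ y ∈ A, ContinuousOn (fun t => f t y) (Icc (0 : ℝ) 1) := by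
    intro y hy
    have h1 : ContinuousOn (fun t : ℝ => Nu (x₀ + t • v, y)) (Icc (0 : ℝ) 1) := by
      refine hNc.comp (t := O) (Continuous.continuousOn (by fun_prop)) ?_
      intro t ht
      exact hKO ⟨hseg t ht, hy⟩
    have h2 : ContinuousOn (fun t : ℝ => (Nu (x₀ + t • v, y)) v) (Icc (0 : ℝ) 1) :=
      h1.clm_apply continuousOn_const
    exact h2.neg
  have hballA : ∀ p : V, ‖p - y₁‖ ≤ 1 / 4 → ∀ r : ℝ, r ≤ 1 / 2 → closedBall p r ⊆ A := by
    intro p hp r hr z hz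
    rw [mem_closedBall, dist_eq_norm] at hz
    have h1 : ‖z - y₁‖ ≤ 3 / 4 := by
      have : z - y₁ = (z - p) + (p - y₁) := by abel
      rw [this]
      refine (norm_add_le _ _).trans ?_
      linarith
    have h2 : ‖z‖ ≤ ‖z - y₁‖ + ‖y₁‖ := by
      have : z = (z - y₁) + y₁ := by abel
      nth_rw 1 [this]; exact norm_add_le _ _
    have h3 : ‖y₁‖ ≤ ‖z - y₁‖ + ‖z‖ := by
      have : y₁ = z - (z - y₁) := by abel
      nth_rw 1 [this]
      refine (norm_sub_le _ _).trans (by linarith)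
    refine ⟨?_, ?_⟩ <;> linarith
  have hPL : ∀ (t₀ : Icc (0 : ℝ) 1) (p : V), ‖p - y₁‖ ≤ 1 / 4 →
      IsPicardLindelof f t₀ p (1 / 16 : ℝ≥0) 0 (1 / 16 : ℝ≥0) (1 / 16 : ℝ≥0) := by
    intro t₀ p hp
    have hsub : closedBall p ((1 / 16 : ℝ≥0) : ℝ) ⊆ A := hballA p hp _ (by norm_num)
    refine ⟨fun t ht => hlip t ht p _ hsub, fun y hy => hcont y (hsub hy),
      fun t ht y hy => ?_, ?_⟩
    · have := hfn t ht y (hsub hy)
      simpa using this
    · have h1 : max (1 - (t₀ : ℝ)) ((t₀ : ℝ) - 0) ≤ 1 :=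
        max_le (by linarith [t₀.2.1]) (by linarith [t₀.2.2])
      have : ((1 / 16 : ℝ≥0) : ℝ) * max (1 - (t₀ : ℝ)) ((t₀ : ℝ) - 0) ≤ 1 / 16 := by
        have e : ((1 / 16 : ℝ≥0) : ℝ) = 1 / 16 := by norm_num
        rw [e]; nlinarith
      simpa using this
  obtain ⟨a, ha1, had, hab⟩ := tra_pl (hPL ⟨1, by norm_num, le_rfl⟩ y₁ (by simp))
  have ha1' : a 1 = y₁ := ha1
  have h16 : ((1 / 16 : ℝ≥0) : ℝ) = 1 / 16 := by norm_num
  have hab' : ∀ t ∈ Icc (0 : ℝ) 1, ‖a t - y₁‖ ≤ 1 / 16 := by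
    intro t ht
    have := hab t ht
    rw [mem_closedBall, dist_eq_norm, h16] at this
    exact this
  have h0 : (0 : ℝ) ∈ Icc (0 : ℝ) 1 := by norm_num
  have h1 : (1 : ℝ) ∈ Icc (0 : ℝ) 1 := by norm_num
  have ha0 : a 0 ≠ 0 := by
    intro h
    have := hab' 0 h0
    rw [h, zero_sub, norm_neg, hy₁] at this
    norm_num at this
  obtain ⟨z, hz, hRz⟩ := hdense (a 0) ha0 (min (1 / 16) (δ / 8)) (lt_min (by norm_num) (by linarith))
  have hz1 : ‖z - a 0‖ < 1 / 16 := lt_of_lt_of_le hz (min_le_left _ _)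
  have hz2 : ‖z - a 0‖ < δ / 8 := lt_of_lt_of_le hz (min_le_right _ _)
  have hzy : ‖z - y₁‖ ≤ 1 / 8 := by
    have : z - y₁ = (z - a 0) + (a 0 - y₁) := by abel
    rw [this]
    refine (norm_add_le _ _).trans ?_
    have := hab' 0 h0
    linarith
  obtain ⟨b, hb0, hbd, hbb⟩ := tra_pl (hPL ⟨0, le_rfl, by norm_num⟩ z (by linarith))
  have hb0' : b 0 = z := hb0
  have hbb' : ∀ t ∈ Icc (0 : ℝ) 1, ‖b t - y₁‖ ≤ 3 / 16 := by
    intro t ht
    have h2 := hbb t ht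
    rw [mem_closedBall, dist_eq_norm, h16] at h2
    have : b t - y₁ = (b t - z) + (z - y₁) := by abel
    rw [this]
    refine (norm_add_le _ _).trans ?_
    linarith
  have hA1 : closedBall y₁ (1 / 2) ⊆ A := hballA y₁ (by simp) _ le_rfl
  have hbA : ∀ t ∈ Icc (0 : ℝ) 1, b t ∈ A := by
    intro t ht
    apply hA1
    rw [mem_closedBall, dist_eq_norm]
    linarith [hbb' t ht]
  have hright : ∀ (g : ℝ → V) (g' : V) (t : ℝ), t ∈ Ico (0 : ℝ) 1 →
      HasDerivWithinAt g g' (Icc 0 1) t → HasDerivWithinAt g g' (Ici t) t := by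
    intro g g' t ht h
    have h2 : Icc t 1 ⊆ Icc (0 : ℝ) 1 := Icc_subset_Icc_left ht.1
    exact (h.mono h2).mono_of_mem_nhdsWithin (Icc_mem_nhdsGE ht.2)
  have hgron := dist_le_of_trajectories_ODE_of_mem (v := f) (s := fun _ => closedBall y₁ (1 / 2))
    (K := (1 / 16 : ℝ≥0)) (a := 0) (b := 1) (δ := ‖z - a 0‖) (f := b) (g := a)
    (fun t ht => hlip t (Ico_subset_Icc_self ht) y₁ _ hA1)
    (fun t ht => (hbd t ht).continuousWithinAt)
    (fun t ht => hright b _ t ht (hbd t (Ico_subset_Icc_self ht)))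
    (fun t ht => by
      rw [mem_closedBall, dist_eq_norm]; linarith [hbb' t (Ico_subset_Icc_self ht)])
    (fun t ht => (had t ht).continuousWithinAt)
    (fun t ht => hright a _ t ht (had t (Ico_subset_Icc_self ht)))
    (fun t ht => by
      rw [mem_closedBall, dist_eq_norm]; linarith [hab' t (Ico_subset_Icc_self ht)])
    (by rw [hb0', dist_eq_norm]) 1 h1
  refine ⟨b 1, ?_, ?_⟩
  · rw [ha1', dist_eq_norm, h16] at hgron
    have hexp : Real.exp (1 / 16 * (1 - 0)) ≤ 8 := by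
      have h3 : Real.exp (1 / 16 * (1 - 0)) ≤ Real.exp 1 := Real.exp_le_exp.mpr (by norm_num)
      have h4 := Real.exp_one_lt_d9
      linarith
    have h5 : ‖z - a 0‖ * Real.exp (1 / 16 * (1 - 0)) ≤ ‖z - a 0‖ * 8 :=
      mul_le_mul_of_nonneg_left hexp (norm_nonneg _)
    linarith
  · refine hR x₀ x₁ b ?_ ?_ ?_ ?_ ?_
    · intro t ht
      exact hρU (hseg t ht)
    · intro t ht h
      have := (hbA t ht).1
      rw [h, norm_zero] at this
      norm_num at this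
    · intro t ht
      exact hbd t ht
    · intro t ht
      obtain ⟨D, hD1, hD2⟩ := hder t ht (b t) (hbA t ht)
      rw [hD2.fderiv]
      linarith
    · rw [hb0']
      exact hRz

end Pool.Agent.H19.UNI
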